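import Pool.Agent.Helper76.TK5.StK

/-!
# Project TK (levels `3 * 5^n`), module E1BK: even exponent, injectivity

Model: modules E1BH of helper74 and E1BH7 of helper51.
-/

set_option autoImplicit false

namespace Pool.Agent.Helper25.TK5

open Pool.Agent.Helper76.TK5 Pool.Agent.Helper4.TK
open Pool.Agent.Helper14.CV (Homog EqC act StFar ne_zero_of_det)

private lemma dvd5 {n : ℤ} : (5 : ℤ) ∣ n ↔ (n : ZMod 5) = 0 :=
  (ZMod.intCast_zmod_eq_zero_iff_dvd n 5).symm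

/-- a diagonal entry is a unit -/
private lemma ut (j : ℕ) {a d b c e : ℤ} (h : a * d - 5 * b * (5 * c) = e)
    (he : e = 1 ∨ e = 3) : IsUnit (a : ZMod (5 ^ (j + 1))) := by
  rw [ZMod.coe_int_isUnit_iff_isCoprime]
  push_cast
  apply IsCoprime.pow_left
  rcases he with rfl | rfl
  · exact ⟨-5 * (b * c), d, by linear_combination h⟩
  · exact ⟨-10 * (b * c) - 1, 2 * d, by linear_combination 2 * h⟩

/-- every matrix has coordinates -/
private lemma exPl (j : ℕ) {a b c d : ℤ} (h : KTy a (5 ^ 1 * b) (5 * c) d) :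
    ∃ x y : ZMod (5 ^ (j + 1)), PlK 1 a b c d x y := by
  have he : ∃ e, a * d - 5 * b * (5 * c) = e ∧ (e = 1 ∨ e = 3) := by
    rcases h with h | h
    · exact ⟨1, by linear_combination h.1, Or.inl rfl⟩
    · exact ⟨3, by linear_combination h.1, Or.inr rfl⟩
  obtain ⟨e, h1, h2⟩ := he
  have ha := ut j h1 h2
  have hd := ut j (a := d) (d := a) (b := b) (c := c) (e := e) (by linear_combination h1) h2
  refine ⟨b * (a : ZMod (5 ^ (j + 1)))⁻¹, c * (d : ZMod (5 ^ (j + 1)))⁻¹, h, ?_, ?_⟩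
  · rw [mul_assoc, ZMod.inv_mul_of_unit _ ha, mul_one]
  · rw [mul_assoc, ZMod.inv_mul_of_unit _ hd, mul_one]

/-- images of nonzero vectors -/
private lemma nz {a b c d : ℤ} (h : KTy a b c d) {u1 u2 : ℤ} (hu : u1 ≠ 0 ∨ u2 ≠ 0) :
    a * u1 + b * u2 ≠ 0 ∨ c * u1 + d * u2 ≠ 0 :=
  ne_zero_of_det (a := a) (b := b) (c := c) (d := d) h.det_ne hu

/-- the symmetries of the potential -/
private structure Inv (G : ℤ → ℤ → ℂ) : Prop where
  hom : Homog G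
  st : ∀ x y z w : ℤ, (x ≠ 0 ∨ y ≠ 0) → (z ≠ 0 ∨ w ≠ 0) → G (-x) y - G (-z) w = G x y - G z w
  sw : ∀ x y z w : ℤ, (x ≠ 0 ∨ y ≠ 0) → (z ≠ 0 ∨ w ≠ 0) →
    G y (3 * x) - G w (3 * z) = -(G x y - G z w)

/-- the two vectors have equal values for all matrices -/
private def W (G : ℤ → ℤ → ℂ) (u1 u2 v1 v2 : ℤ) : Prop :=
  (u1 ≠ 0 ∨ u2 ≠ 0) ∧ (v1 ≠ 0 ∨ v2 ≠ 0) ∧ ∀ a b c d : ℤ, KTy a (5 * b) (5 * c) d →
    G (a * u1 + 5 * b * u2) (5 * c * u1 + d * u2) = G (a * v1 + 5 * b * v2) (5 * c * v1 + d * v2)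

section

variable {G : ℤ → ℤ → ℂ}

private lemma W.tr {u1 u2 v1 v2 w1 w2 : ℤ} (h : W G u1 u2 v1 v2) (h' : W G v1 v2 w1 w2) :
    W G u1 u2 w1 w2 :=
  ⟨h.1, h'.2.1, fun a b c d hT => (h.2.2 a b c d hT).trans (h'.2.2 a b c d hT)⟩

private lemma W.sy {u1 u2 v1 v2 : ℤ} (h : W G u1 u2 v1 v2) : W G v1 v2 u1 u2 :=
  ⟨h.2.1, h.1, fun a b c d hT => (h.2.2 a b c d hT).symm⟩

/-- scaling -/
private lemma W.sc (hI : Inv G) {s1 s2 t1 t2 : ℤ} (h : W G s1 s2 t1 t2) (k l : ℤ)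
    {u1 u2 v1 v2 : ℤ} (hs : k ≠ 0 ∧ l ≠ 0 ∧ s1 = k * u1 ∧ s2 = k * u2 ∧ t1 = l * v1 ∧
      t2 = l * v2) : W G u1 u2 v1 v2 := by
  obtain ⟨hk, hl, rfl, rfl, rfl, rfl⟩ := hs
  obtain ⟨h1, h2, h3⟩ := h
  have hu : u1 ≠ 0 ∨ u2 ≠ 0 := by
    rcases h1 with h | h
    · exact Or.inl (right_ne_zero_of_mul h)
    · exact Or.inr (right_ne_zero_of_mul h)
  have hv : v1 ≠ 0 ∨ v2 ≠ 0 := by
    rcases h2 with h | h
    · exact Or.inl (right_ne_zero_of_mul h)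
    · exact Or.inr (right_ne_zero_of_mul h)
  refine ⟨hu, hv, fun a b c d hT => ?_⟩
  have e := h3 a b c d hT
  have f1 := hI.hom k _ _ hk (nz hT hu)
  have f2 := hI.hom l _ _ hl (nz hT hv)
  rw [← f1, ← f2]
  calc _ = _ := by congr 1 <;> ring
    _ = _ := e
    _ = _ := by congr 1 <;> ring

private lemma neq {x y : ℤ} (h : x ≠ 0 ∨ y ≠ 0) : -x ≠ 0 ∨ y ≠ 0 := by
  rcases h with h | h
  · exact Or.inl (neg_ne_zero.2 h)
  · exact Or.inr h

private lemma swq' {x y : ℤ} (h : x ≠ 0 ∨ y ≠ 0) : -y ≠ 0 ∨ 3 * x ≠ 0 := by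
  rcases h with h | h
  · exact Or.inr (by omega)
  · exact Or.inl (neg_ne_zero.2 h)

private lemma swq {x y : ℤ} (h : x ≠ 0 ∨ y ≠ 0) : y ≠ 0 ∨ 3 * x ≠ 0 := by
  rcases h with h | h
  · exact Or.inr (by omega)
  · exact Or.inl h

/-- conjugation by `*` -/
private lemma W.st (hI : Inv G) {u1 u2 v1 v2 : ℤ} (h : W G u1 u2 v1 v2) :
    W G (-u1) u2 (-v1) v2 := by
  refine ⟨neq h.1, neq h.2.1, fun a b c d hT => ?_⟩
  have hT' : KTy a (5 * -b) (5 * -c) d := by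
    rcases hT with ⟨h1, h2⟩ | ⟨h1, h2, h3, h4⟩
    · exact Or.inl ⟨by linear_combination h1, by omega⟩
    · exact Or.inr ⟨by linear_combination h1, h2, by omega, h4⟩
  have e := hI.st _ _ _ _ (nz hT' h.1) (nz hT' h.2.1)
  rw [h.2.2 _ _ _ _ hT', sub_self] at e
  have e' := sub_eq_zero.1 e
  calc _ = _ := by congr 1 <;> ring
    _ = _ := e'
    _ = _ := by congr 1 <;> ring

/-- conjugation by `b` -/
private lemma W.sw (hI : Inv G) {u1 u2 v1 v2 : ℤ} (h : W G u1 u2 v1 v2) :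
    W G u2 (3 * u1) v2 (3 * v1) := by
  refine ⟨swq h.1, swq h.2.1, fun a b c d hT => ?_⟩
  obtain ⟨c', rfl⟩ : ∃ c', c = 3 * c' := by
    rcases hT with ⟨h1, h2⟩ | ⟨h1, h2, h3, h4⟩
    · exact ⟨c / 3, by omega⟩
    · exact ⟨c / 3, by omega⟩
  have hT' : KTy d (5 * c') (5 * (3 * b)) a := by
    rcases hT with ⟨h1, h2⟩ | ⟨h1, h2, h3, h4⟩
    · exact Or.inl ⟨by linear_combination h1, by omega⟩
    · exact Or.inr ⟨by linear_combination h1, h4, by omega, h2⟩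
  have e := hI.sw _ _ _ _ (nz hT' h.1) (nz hT' h.2.1)
  rw [h.2.2 _ _ _ _ hT', sub_self, neg_zero] at e
  have e' := sub_eq_zero.1 e
  calc _ = _ := by congr 1 <;> ring
    _ = _ := e'
    _ = _ := by congr 1 <;> ring

/-- multiplication by a matrix on the right -/
private lemma W.rm (hI : Inv G) {u1 u2 v1 v2 : ℤ} (h : W G u1 u2 v1 v2) (α β γ δ : ℤ)
    (hm : KTy α (5 * β) (5 * γ) δ) :
    W G (α * u1 + 5 * β * u2) (5 * γ * u1 + δ * u2) (α * v1 + 5 * β * v2)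
      (5 * γ * v1 + δ * v2) := by
  refine ⟨nz hm h.1, nz hm h.2.1, fun a b c d hT => ?_⟩
  obtain ⟨k, a', b', c', d', hk, hT', e1, e2, e3, e4⟩ : ∃ k a' b' c' d' : ℤ, k ≠ 0 ∧
      KTy a' (5 * b') (5 * c') d' ∧ a * α + 25 * b * γ = k * a' ∧ a * β + b * δ = k * b' ∧
      c * α + d * γ = k * c' ∧ 25 * c * β + d * δ = k * d' := by
    rcases hT with ⟨h1, h2⟩ | ⟨h1, h2, h3, h4⟩
    · rcases hm with ⟨g1, g2⟩ | ⟨g1, g2, g3, g4⟩
      · refine ⟨1, a * α + 25 * b * γ, a * β + b * δ, c * α + d * γ, 25 * c * β + d * δ,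
          one_ne_zero, Or.inl ⟨?_, ?_⟩, by ring, by ring, by ring, by ring⟩
        · linear_combination (α * δ - 5 * β * (5 * γ)) * h1 + g1
        · obtain ⟨c', rfl⟩ : ∃ c', c = 3 * c' := ⟨c / 3, by omega⟩
          obtain ⟨γ', rfl⟩ : ∃ γ', γ = 3 * γ' := ⟨γ / 3, by omega⟩
          exact ⟨5 * (c' * α + d * γ'), by ring⟩
      · refine ⟨1, a * α + 25 * b * γ, a * β + b * δ, c * α + d * γ, 25 * c * β + d * δ,
          one_ne_zero, Or.inr ?_, by ring, by ring, by ring, by ring⟩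
        obtain ⟨c', rfl⟩ : ∃ c', c = 3 * c' := ⟨c / 3, by omega⟩
        obtain ⟨γ', rfl⟩ : ∃ γ', γ = 3 * γ' := ⟨γ / 3, by omega⟩
        obtain ⟨α', rfl⟩ := g2
        obtain ⟨δ', rfl⟩ := g4
        refine ⟨?_, ⟨a * α' + 25 * b * γ', by ring⟩, ⟨5 * (c' * (3 * α') + d * γ'), by ring⟩,
          ⟨25 * c' * β + d * δ', by ring⟩⟩
        linear_combination (3 * α' * (3 * δ') - 5 * β * (5 * (3 * γ'))) * h1 + g1
    · rcases hm with ⟨g1, g2⟩ | ⟨g1, g2, g3, g4⟩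
      · refine ⟨1, a * α + 25 * b * γ, a * β + b * δ, c * α + d * γ, 25 * c * β + d * δ,
          one_ne_zero, Or.inr ?_, by ring, by ring, by ring, by ring⟩
        obtain ⟨c', rfl⟩ : ∃ c', c = 3 * c' := ⟨c / 3, by omega⟩
        obtain ⟨γ', rfl⟩ : ∃ γ', γ = 3 * γ' := ⟨γ / 3, by omega⟩
        obtain ⟨a', rfl⟩ := h2
        obtain ⟨d', rfl⟩ := h4
        refine ⟨?_, ⟨a' * α + 25 * b * γ', by ring⟩, ⟨5 * (c' * α + 3 * d' * γ'), by ring⟩,
          ⟨25 * c' * β + d' * δ, by ring⟩⟩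
        linear_combination (α * δ - 5 * β * (5 * (3 * γ'))) * h1 + 3 * g1
      · obtain ⟨c', rfl⟩ : ∃ c', c = 3 * c' := ⟨c / 3, by omega⟩
        obtain ⟨γ', rfl⟩ : ∃ γ', γ = 3 * γ' := ⟨γ / 3, by omega⟩
        obtain ⟨α', rfl⟩ := g2
        obtain ⟨δ', rfl⟩ := g4
        obtain ⟨a', rfl⟩ := h2
        obtain ⟨d', rfl⟩ := h4
        refine ⟨3, a' * (3 * α') + 25 * b * γ', a' * β + b * δ', c' * (3 * α') + d' * (3 * γ'),
          25 * c' * β + d' * (3 * δ'), three_ne_zero, Or.inl ⟨?_, ?_⟩, by ring, by ring, by ring,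
          by ring⟩
        · have e : (9 : ℤ) * ((a' * (3 * α') + 25 * b * γ') * (25 * c' * β + d' * (3 * δ')) -
              5 * (a' * β + b * δ') * (5 * (c' * (3 * α') + d' * (3 * γ')))) = 9 * 1 := by
            linear_combination (3 * α' * (3 * δ') - 5 * β * (5 * (3 * γ'))) * h1 + 3 * g1
          exact mul_left_cancel₀ (by norm_num : (9 : ℤ) ≠ 0) e
        · exact ⟨5 * (c' * α' + d' * γ'), by ring⟩
  have e := h.2.2 _ _ _ _ hT'
  have f1 := hI.hom k _ _ hk (nz hT' h.1)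
  have f2 := hI.hom k _ _ hk (nz hT' h.2.1)
  rw [← f1, ← f2] at e
  have q1 : ∀ s t : ℤ, a * (α * s + 5 * β * t) + 5 * b * (5 * γ * s + δ * t) =
      k * (a' * s + 5 * b' * t) := by
    intro s t
    linear_combination s * e1 + 5 * t * e2
  have q2 : ∀ s t : ℤ, 5 * c * (α * s + 5 * β * t) + d * (5 * γ * s + δ * t) =
      k * (5 * c' * s + d' * t) := by
    intro s t
    linear_combination 5 * s * e3 + t * e4
  rw [q1, q1, q2, q2]
  exact e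

/-- one edge: the matrix is `g ρ`, `ρ = (r1 r2; r3 r4)` -/
private lemma one {r1 r2 r3 r4 : ℤ} (hr : r1 * r4 - r2 * r3 = 1) (hW : W G r1 r3 r2 r4)
    {p q r s : ℤ} (h : p * s - q * r = 1) (e1 : (5 : ℤ) ∣ q * r1 - p * r2)
    (e2 : (5 : ℤ) ∣ r * r4 - s * r3) (e3 : (3 : ℤ) ∣ r * r4 - s * r3) : G p r = G q s := by
  obtain ⟨b, hb⟩ := e1
  obtain ⟨c, hc⟩ := e2
  have hT : KTy (p * r4 - q * r3) (5 * b) (5 * c) (s * r1 - r * r2) := by
    refine Or.inl ⟨?_, by rw [← hc]; exact e3⟩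
    rw [← hb, ← hc]
    linear_combination (p * s - q * r) * hr + h
  have e := hW.2.2 _ _ _ _ hT
  have g1 : (p * r4 - q * r3) * r1 + 5 * b * r3 = p := by
    linear_combination p * hr - r3 * hb
  have g2 : 5 * c * r1 + (s * r1 - r * r2) * r3 = r := by
    linear_combination r * hr - r1 * hc
  have g3 : (p * r4 - q * r3) * r2 + 5 * b * r4 = q := by
    linear_combination q * hr - r4 * hb
  have g4 : 5 * c * r2 + (s * r1 - r * r2) * r4 = s := by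
    linear_combination s * hr - r2 * hc
  rw [g1, g2, g3, g4] at e
  exact e

/-- absolute values of the cusps -/
private def Cu : List (ℕ × ℕ) :=
  [(1, 0), (0, 1), (1, 1), (1, 2), (2, 1), (3, 1), (1, 3), (3, 2), (2, 3), (3, 4), (4, 3), (1, 4),
   (2, 5), (5, 3), (1, 5), (3, 5), (5, 2), (1, 6), (7, 4), (8, 5)]

private lemma W.ng (hI : Inv G) {x y : ℤ} (h : W G 1 0 x y) : W G 1 0 (-x) (-y) :=
  h.sc hI 1 (-1) ⟨by norm_num, by norm_num, by norm_num, by norm_num, by ring, by ring⟩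

private lemma W.mi (hI : Inv G) {x y : ℤ} (h : W G 1 0 x y) : W G 1 0 (-x) y :=
  (h.st hI).sc hI (-1) 1 ⟨by norm_num, by norm_num, by norm_num, by norm_num, by ring, by ring⟩

/-- the cusps are equivalent to `∞` -/
private lemma cusps (hI : Inv G) (q01 : W G 1 0 0 1) (g1 : W G 1 3 1 2) (q11 : W G 1 0 1 1)
    (g2 : W G 1 1 4 3) (q21 : W G 1 0 2 1) :
    ∀ c ∈ Cu, W G 1 0 (c.1 : ℤ) (c.2 : ℤ) := by
  have q10 : W G 1 0 1 0 := q01.tr q01.sy
  have q43 : W G 1 0 4 3 := q11.tr g2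
  have mA : KTy 1 (5 * -1) (5 * 0) 1 := Or.inl (by decide)
  have mB : KTy 12 (5 * -1) (5 * 3) (-6) := Or.inr (by decide)
  have mC : KTy (-6) (5 * 1) (5 * -3) 12 := Or.inr (by decide)
  have mD : KTy (-24) (5 * 1) (5 * -3) 3 := Or.inr (by decide)
  have mE : KTy 23 (5 * 4) (5 * -3) (-13) := Or.inl (by decide)
  have mF : KTy (-9) (5 * 4) (5 * -3) 33 := Or.inr (by decide)
  have mG : KTy (-33) (5 * 4) (5 * -3) 9 := Or.inr (by decide)
  -- images under `b`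
  have q13 : W G 1 0 1 3 := ((q01.sy.tr q11).sw hI).sc hI 1 1 (by norm_num)
  have q12 : W G 1 0 1 2 := q13.tr g1
  have q23 : W G 1 0 2 3 := ((q01.sy.tr q12).sw hI).sc hI 1 1 (by norm_num)
  have q16 : W G 1 0 1 6 := ((q01.sy.tr q21).sw hI).sc hI 1 1 (by norm_num)
  have q14 : W G 1 0 1 4 := ((q01.sy.tr q43).sw hI).sc hI 1 3 (by norm_num)
  have m31 : W G 1 0 (-3) 1 := (q21.rm hI _ _ _ _ mA).sc hI 1 1 (by norm_num)
  have q31 : W G 1 0 3 1 := by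
    have := m31.mi hI
    rwa [neg_neg] at this
  have q34 : W G 1 0 3 4 := by
    have : W G 2 3 3 4 := ((q12.sy.tr q23).rm hI _ _ _ _ mB).sc hI 1 3 (by norm_num)
    exact q23.tr this
  have q25 : W G 1 0 2 5 := by
    have : W G 1 3 2 5 := (q11.sy.rm hI _ _ _ _ mC).sc hI (-1) (-3) (by norm_num)
    exact q13.tr this
  have q85 : W G 1 0 8 5 := by
    have : W G 4 3 8 5 := (q14.sy.rm hI _ _ _ _ mD).sc hI (-1) (-3) (by norm_num)
    exact q43.tr this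
  have q53 : W G 1 0 5 3 := by
    have : W G 8 5 5 3 := (q01.rm hI _ _ _ _ mD).sc hI (-3) 1 (by norm_num)
    exact q85.tr this
  have q15 : W G 1 0 1 5 := by
    have : W G 0 1 1 5 := (q53.sw hI).sc hI 3 3 (by norm_num)
    exact q01.tr this
  have m53 : W G 1 0 (-5) 3 := q53.mi hI
  have m25 : W G 1 0 (-2) 5 := q25.mi hI
  have m13 : W G 1 0 (-1) 3 := q13.mi hI
  have m32 : W G 1 0 (-3) 2 := by
    have h1 : W G 5 (-6) 3 (-3) := ((m25.sy.tr m13).sw hI).sc hI 1 1 (by norm_num)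
    have h2 : W G (-5) 3 (-3) 2 := (h1.rm hI _ _ _ _ mE).sc hI 1 (-3) (by norm_num)
    exact m53.tr h2
  have q32 : W G 1 0 3 2 := by
    have := m32.mi hI
    rwa [neg_neg] at this
  have q74 : W G 1 0 7 4 := by
    have h1 : W G 0 1 1 9 := (q31.sw hI).sc hI 3 1 (by norm_num)
    have h2 : W G 5 3 7 4 := (h1.rm hI _ _ _ _ mD).sc hI 1 3 (by norm_num)
    exact q53.tr h2
  have q35 : W G 1 0 3 5 := by
    have : W G 2 3 3 5 := (q21.sy.rm hI _ _ _ _ mF).sc hI 1 (-3) (by norm_num)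
    exact q23.tr this
  have q52 : W G 1 0 5 2 := by
    have h1 : W G 2 3 5 9 := ((q12.sy.tr q35).sw hI).sc hI 1 1 (by norm_num)
    have h2 : W G 2 1 5 2 := (h1.rm hI _ _ _ _ mG).sc hI (-3) 3 (by norm_num)
    exact q21.tr h2
  intro c hc
  simp only [Cu, List.mem_cons, List.not_mem_nil, or_false] at hc
  rcases hc with rfl | rfl | rfl | rfl | rfl | rfl | rfl | rfl | rfl | rfl | rfl | rfl | rfl | rfl | rfl | rfl | rfl | rfl | rfl | rfl
  all_goals simp only [Nat.cast_one, Nat.cast_zero, Nat.cast_ofNat]; assumption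

private lemma abs_cusp (hI : Inv G) (h : ∀ c ∈ Cu, W G 1 0 (c.1 : ℤ) (c.2 : ℤ)) {x y : ℤ}
    (hc : (x.natAbs, y.natAbs) ∈ Cu) : W G 1 0 x y := by
  have e : W G 1 0 (x.natAbs : ℤ) (y.natAbs : ℤ) := h _ hc
  rcases Int.natAbs_eq x with hx | hx <;> rcases Int.natAbs_eq y with hy | hy <;> rw [hx, hy]
  · exact e
  · have := (e.ng hI).mi hI
    rwa [neg_neg] at this
  · exact e.mi hI
  · exact e.ng hI

end

set_option maxRecDepth 100000 in
private lemma ok : ∀ t ∈ LK01 ++ LK10 ++ LK11 ++ LK12, t.1 * t.2.2.2 - t.2.1 * t.2.2.1 = 1 ∧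
    (t.1.natAbs, t.2.2.1.natAbs) ∈ Cu ∧ (t.2.1.natAbs, t.2.2.2.natAbs) ∈ Cu := by decide

private lemma p01 : ∀ t ∈ LK01, (3 : ℤ) ∣ t.2.2.1 := by decide

private lemma p10 : ∀ t ∈ LK10, (3 : ℤ) ∣ t.2.2.2 := by decide

private lemma p11 : ∀ t ∈ LK11, (3 : ℤ) ∣ t.2.2.1 - t.2.2.2 := by decide

private lemma p12 : ∀ t ∈ LK12, (3 : ℤ) ∣ t.2.2.1 + t.2.2.2 := by decide

set_option maxRecDepth 100000 in
private lemma cls01 : ∀ p q r s : ZMod 5, p * s - q * r = 1 → ∃ t ∈ LK01,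
    q * (t.1 : ZMod 5) - p * (t.2.1 : ZMod 5) = 0 ∧
      r * (t.2.2.2 : ZMod 5) - s * (t.2.2.1 : ZMod 5) = 0 := by decide

set_option maxRecDepth 100000 in
private lemma cls10 : ∀ p q r s : ZMod 5, p * s - q * r = 1 → ∃ t ∈ LK10,
    q * (t.1 : ZMod 5) - p * (t.2.1 : ZMod 5) = 0 ∧
      r * (t.2.2.2 : ZMod 5) - s * (t.2.2.1 : ZMod 5) = 0 := by decide

set_option maxRecDepth 100000 in
private lemma cls11 : ∀ p q r s : ZMod 5, p * s - q * r = 1 → ∃ t ∈ LK11,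
    q * (t.1 : ZMod 5) - p * (t.2.1 : ZMod 5) = 0 ∧
      r * (t.2.2.2 : ZMod 5) - s * (t.2.2.1 : ZMod 5) = 0 := by decide

set_option maxRecDepth 100000 in
private lemma cls12 : ∀ p q r s : ZMod 5, p * s - q * r = 1 → ∃ t ∈ LK12,
    q * (t.1 : ZMod 5) - p * (t.2.1 : ZMod 5) = 0 ∧
      r * (t.2.2.2 : ZMod 5) - s * (t.2.2.1 : ZMod 5) = 0 := by decide

/-- the representative of a matrix -/
private lemma rep {p q r s : ℤ} (h : p * s - q * r = 1) : ∃ t ∈ LK01 ++ LK10 ++ LK11 ++ LK12,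
    (5 : ℤ) ∣ q * t.1 - p * t.2.1 ∧ (5 : ℤ) ∣ r * t.2.2.2 - s * t.2.2.1 ∧
      (3 : ℤ) ∣ r * t.2.2.2 - s * t.2.2.1 := by
  have hc : (p : ZMod 5) * s - q * r = 1 := by
    have h' := congrArg (Int.cast : ℤ → ZMod 5) h
    push_cast at h'
    exact h'
  by_cases hr : (3 : ℤ) ∣ r
  · obtain ⟨t, ht, e1, e2⟩ := cls01 _ _ _ _ hc
    refine ⟨t, by simp [ht], dvd5.2 (by push_cast; exact e1), dvd5.2 (by push_cast; exact e2),
      dvd_sub (Dvd.dvd.mul_right hr _) (Dvd.dvd.mul_left (p01 t ht) _)⟩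
  · by_cases hs : (3 : ℤ) ∣ s
    · obtain ⟨t, ht, e1, e2⟩ := cls10 _ _ _ _ hc
      refine ⟨t, by simp [ht], dvd5.2 (by push_cast; exact e1), dvd5.2 (by push_cast; exact e2),
        dvd_sub (Dvd.dvd.mul_left (p10 t ht) _) (Dvd.dvd.mul_right hs _)⟩
    · by_cases hrs : (3 : ℤ) ∣ r - s
      · obtain ⟨t, ht, e1, e2⟩ := cls11 _ _ _ _ hc
        refine ⟨t, by simp [ht], dvd5.2 (by push_cast; exact e1), dvd5.2 (by push_cast; exact e2),
          ?_⟩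
        obtain ⟨a, ha⟩ := p11 t ht
        obtain ⟨b, hb⟩ := hrs
        exact ⟨b * t.2.2.2 - s * a, by linear_combination t.2.2.2 * hb - s * ha⟩
      · have hrs' : (3 : ℤ) ∣ r + s := by
          have a1 : r % 3 = 1 ∨ r % 3 = 2 := by omega
          have a2 : s % 3 = 1 ∨ s % 3 = 2 := by omega
          rcases a1 with a1 | a1 <;> rcases a2 with a2 | a2 <;> omega
        obtain ⟨t, ht, e1, e2⟩ := cls12 _ _ _ _ hc
        refine ⟨t, by simp [ht], dvd5.2 (by push_cast; exact e1), dvd5.2 (by push_cast; exact e2),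
          ?_⟩
        obtain ⟨a, ha⟩ := p12 t ht
        obtain ⟨b, hb⟩ := hrs'
        exact ⟨b * t.2.2.2 - s * a, by linear_combination t.2.2.2 * hb - s * ha⟩

/-- Module E1BK. -/
theorem hE1BK : StHE1bK := by
  intro he _ hfar k G hk hB hz
  obtain ⟨j, rfl⟩ : ∃ j, k = j + 2 := ⟨k - 2, by omega⟩
  obtain ⟨hS, -, -, hW, hT⟩ := hB
  have hI : Inv G := by
    refine ⟨hS.1, ?_, ?_⟩
    · intro x y z w h1 h2
      have e := hT.diff h1 h2
      simp only [act] at e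
      rw [← e]
      congr 2 <;> ring
    · intro x y z w h1 h2
      have e := hW.diff h1 h2
      have f := hT.diff (swq' h1) (swq' h2)
      simp only [act, Pi.neg_apply] at e f
      have e1 : ∀ s t : ℤ, G (-1 * (-t) + 0 * (3 * s)) (0 * (-t) + 1 * (3 * s)) = G t (3 * s) := by
        intro s t; congr 1 <;> ring
      have e2 : ∀ s t : ℤ, G (0 * s + -1 * t) (3 * s + 0 * t) = G (-t) (3 * s) := by
        intro s t; congr 1 <;> ring
      rw [e1, e1] at f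
      rw [e2, e2] at e
      rw [f, e]
      ring
  have key : ∀ u1 u2 v1 v2 : ℤ, (u1 ≠ 0 ∨ u2 ≠ 0) → (v1 ≠ 0 ∨ v2 ≠ 0) →
      (∀ x y : ZMod (5 ^ (j + 1)), edgeK 1 u1 u2 v1 v2 G x y = 0) → W G u1 u2 v1 v2 := by
    intro u1 u2 v1 v2 hu hv h0
    refine ⟨hu, hv, fun a b c d hg => ?_⟩
    have hg' : KTy a (5 ^ 1 * b) (5 * c) d := by rwa [pow_one]
    obtain ⟨x, y, hp⟩ := exPl j hg'
    have e := he ℂ _ 1 (j + 1) (j + 1) G hS u1 u2 v1 v2 hu hv x y a b c d hp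
    rw [h0 x y, pow_one] at e
    exact (sub_eq_zero.1 e.symm)
  have h1 : W G 1 0 0 1 := key 1 0 0 1 (by norm_num) (by norm_num) fun x y => (hz x y).1.1
  have h2 : W G 1 3 1 2 := key 1 3 1 2 (by norm_num) (by norm_num) fun x y => (hz x y).1.2
  have h3 : W G 1 0 1 1 := key 1 0 1 1 (by norm_num) (by norm_num) fun x y => (hz x y).2.1
  have h4 : W G 1 1 4 3 := key 1 1 4 3 (by norm_num) (by norm_num) fun x y => (hz x y).2.2.1
  have h5 : W G 1 0 2 1 := key 1 0 2 1 (by norm_num) (by norm_num) fun x y => (hz x y).2.2.2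
  have hC := cusps hI h1 h2 h3 h4 h5
  refine hfar ℂ _ G hS.1 fun p q r s h => ?_
  obtain ⟨t, ht, d1, d2, d3⟩ := rep h
  obtain ⟨f1, f2, f3⟩ := ok t ht
  exact one f1 ((abs_cusp hI hC f2).sy.tr (abs_cusp hI hC f3)) h d1 d2 d3

end Pool.Agent.Helper25.TK5
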